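import Mathlib
import Pool.Agent.Results.MP_3d7355_an.Septic

set_option autoImplicit false
open scoped ContDiff

namespace Pool.Agent.Results.MP_a60953_an.AllDim

/-- The Laplacian in all the variables `(t, y)`, `y ∈ ℝ^m`. -/
noncomputable def lap {m : ℕ} (u : ℝ → EuclideanSpace ℝ (Fin m) → ℝ) (t : ℝ)
    (y : EuclideanSpace ℝ (Fin m)) : ℝ :=
  iteratedDeriv 2 (fun s => u s y) t +
    ∑ j : Fin m, iteratedDeriv 2 (fun r : ℝ => u t (y + r • EuclideanSpace.single j 1)) 0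

theorem lap_eq {m : ℕ} (i : Fin m) (u : ℝ → ℝ → ℝ) (t : ℝ) (y : EuclideanSpace ℝ (Fin m)) :
    lap (fun t y => u t (y i)) t y = MP_3d7355_an.Septic.lap u t (y i) := by
  unfold lap MP_3d7355_an.Septic.lap
  congr 1
  rw [Finset.sum_eq_single i]
  · have : (fun r : ℝ => u t ((y + r • EuclideanSpace.single i (1 : ℝ)) i)) =
        fun r : ℝ => (fun z => u t z) (y i + r) := by
      funext r; simp
    rw [this, iteratedDeriv_comp_const_add]
    simp
  · intro j _ hj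
    have : (fun r : ℝ => u t ((y + r • EuclideanSpace.single j (1 : ℝ)) i)) =
        fun _ : ℝ => u t (y i) := by
      funext r; simp [Ne.symm hj]
    rw [this, iteratedDeriv_const]
    simp
  · simp

theorem result (m : ℕ) (hm : 1 ≤ m) : ∃ u v : ℝ → EuclideanSpace ℝ (Fin m) → ℝ,
    ContDiff ℝ ∞ (fun x : ℝ × EuclideanSpace ℝ (Fin m) => u x.1 x.2) ∧
    ContDiff ℝ ∞ (fun x : ℝ × EuclideanSpace ℝ (Fin m) => v x.1 x.2) ∧
    (∀ t y, 0 < t → t < 1 → ‖y‖ < 1 →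
      v t y < u t y ∧ 0 < u t y ∧ 0 < v t y ∧ 0 < deriv (fun s => u s y) t) ∧
    (∀ y, ‖y‖ < 1 → u 0 y = 0) ∧
    (∀ t s y, 0 < t → t ≤ s → s < 1 → ‖y‖ < 1 → u t y = v s y → lap u t y ≤ lap v s y) ∧
    deriv (fun s => u s 0) 0 = 0 := by
  obtain ⟨u, v, hu, hv, h1, h2, h3, h4, -⟩ := MP_3d7355_an.Septic.result
  let i : Fin m := ⟨0, hm⟩
  have hy : ∀ y : EuclideanSpace ℝ (Fin m), ‖y‖ < 1 → |y i| < 1 := fun y h =>
    lt_of_le_of_lt (by simpa using PiLp.norm_apply_le y i) h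
  have hc : ContDiff ℝ ∞ (fun x : ℝ × EuclideanSpace ℝ (Fin m) => ((x.1, x.2 i) : ℝ × ℝ)) := by
    fun_prop
  refine ⟨fun t y => u t (y i), fun t y => v t (y i), hu.comp hc, hv.comp hc,
    fun t y ht ht1 h => h1 t (y i) ht ht1 (hy y h), fun y h => h2 (y i) (hy y h),
    fun t s y ht hts hs h he => ?_, by simpa using h4⟩
  rw [lap_eq, lap_eq]
  exact h3 t s (y i) ht hts hs (hy y h) he

end Pool.Agent.Results.MP_a60953_an.AllDim
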